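import Pool.Agent.H.MP_b9c098_an.F

set_option autoImplicit false

namespace Pool.Agent.Results.MP_b9c098_an.Five

theorem result {H : Type*} [NormedAddCommGroup H] [InnerProductSpace ℂ H] [CompleteSpace H]
    (hH : ¬ FiniteDimensional ℂ H) (A : H →L[ℂ] H) (hA : IsUnit A) :
    ∃ T₁ T₂ T₃ T₄ T₅ : H →L[ℂ] H, T₁ * T₁ = 1 ∧ T₂ * T₂ = 1 ∧ T₃ * T₃ = 1 ∧ T₄ * T₄ = 1 ∧
      T₅ * T₅ = 1 ∧ A = T₁ * T₂ * T₃ * T₄ * T₅ := by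
  obtain ⟨u, rfl⟩ := hA
  exact Pool.Agent.H.MP_b9c098_an.five hH _ _ u.mul_inv u.inv_mul

end Pool.Agent.Results.MP_b9c098_an.Five
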